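import Pool.Agent.K3h73.TF.Stm

/-!
Brick INTER of the project on trace-class perturbations (owner helper73).
-/

set_option autoImplicit false

namespace Pool.Agent.K3h69.TF

open scoped InnerProductSpace ComplexConjugate Topology
open Filter Pool.Agent.K3h73.TF

variable {H : Type} [NormedAddCommGroup H] [InnerProductSpace ℂ H] [CompleteSpace H]

/-- nuclear operators send bounded weakly null sequences to norm null sequences -/
lemma nuc_null {K : H →L[ℂ] H} {c : ℝ} (hK : Nuc K c) (u : ℕ → H) (M : ℝ)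
    (hM : ∀ n, ‖u n‖ ≤ M) (hu : ∀ y, Tendsto (fun n => ⟪y, u n⟫_ℂ) atTop (𝓝 0)) :
    Tendsto (fun n => K (u n)) atTop (𝓝 0) := by
  obtain ⟨x, y, hs, -, hk⟩ := hK
  have h0 : (0 : H) = ∑' k : ℕ, (0 : H) := by simp
  simp only [hk]
  rw [h0]
  refine tendsto_tsum_of_dominated_convergence (bound := fun k => M * (‖x k‖ * ‖y k‖))
    (hs.mul_left M) ?_ ?_
  · intro k
    have := (hu (y k)).smul_const (x k)
    simpa using this
  · refine Eventually.of_forall fun n k => ?_
    rw [norm_smul]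
    have h1 : ‖⟪y k, u n⟫_ℂ‖ ≤ ‖y k‖ * M :=
      (norm_inner_le_norm _ _).trans (mul_le_mul_of_nonneg_left (hM n) (norm_nonneg _))
    calc ‖⟪y k, u n⟫_ℂ‖ * ‖x k‖ ≤ (‖y k‖ * M) * ‖x k‖ :=
          mul_le_mul_of_nonneg_right h1 (norm_nonneg _)
      _ = M * (‖x k‖ * ‖y k‖) := by ring

/-- the Cayley transform, ring part -/
lemma cayley_ring {R : Type} [Ring R] [StarRing R] (J U Q : R) (hJ : star J = -J)
    (h : (1 + J) ^ 2 = U * (1 - J) ^ 2) (h1 : (1 - J) * Q = 1) (h2 : Q * (1 - J) = 1) :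
    star (2 * Q - 1) * (2 * Q - 1) = 1 ∧ (2 * Q - 1) * star (2 * Q - 1) = 1 ∧
      (2 * Q - 1) * (2 * Q - 1) = U ∧ (2 * Q - 1) * (1 - J) = 1 + J := by
  have e1 : (2 * Q - 1) * (1 - J) = 1 + J := by
    rw [sub_mul, mul_assoc, h2]; noncomm_ring
  have e2 : (1 - J) * (2 * Q - 1) = 1 + J := by
    have : (1 - J) * (2 * Q - 1) = 2 * ((1 - J) * Q) - (1 - J) := by noncomm_ring
    rw [this, h1]; noncomm_ring
  have s1 : star (2 * Q - 1) * (1 + J) = 1 - J := by
    have := congrArg star e2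
    simpa [star_mul, hJ, sub_eq_add_neg] using this
  have s2 : (1 + J) * star (2 * Q - 1) = 1 - J := by
    have := congrArg star e1
    simpa [star_mul, hJ, sub_eq_add_neg] using this
  set V := 2 * Q - 1 with hV
  have c1 : (star V * V) * (1 - J) = 1 - J := by
    rw [mul_assoc, e1, s1]
  have c2 : (1 - J) * (V * star V) = 1 - J := by
    rw [← mul_assoc, e2, s2]
  refine ⟨?_, ?_, ?_, e1⟩
  · calc star V * V = (star V * V) * (1 - J) * Q := by rw [mul_assoc, h1, mul_one]
      _ = 1 := by rw [c1, h1]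
  · calc V * star V = Q * ((1 - J) * (V * star V)) := by rw [← mul_assoc, h2, one_mul]
      _ = 1 := by rw [c2, h2]
  · have c3 : (V * V) * (1 - J) ^ 2 = U * (1 - J) ^ 2 := by
      rw [← h]
      have e3 : V * (1 - J) = (1 - J) * V := by rw [e1, e2]
      calc V * V * (1 - J) ^ 2 = V * (V * (1 - J)) * (1 - J) := by noncomm_ring
        _ = V * ((1 - J) * V) * (1 - J) := by rw [e3]
        _ = (V * (1 - J)) * (V * (1 - J)) := by noncomm_ring
        _ = (1 + J) ^ 2 := by rw [e1]; noncomm_ring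
    have h3 : (1 - J) ^ 2 * (Q * Q) = 1 := by
      calc (1 - J) ^ 2 * (Q * Q) = (1 - J) * ((1 - J) * Q) * Q := by noncomm_ring
        _ = 1 := by rw [h1, mul_one, h1]
    calc V * V = (V * V) * ((1 - J) ^ 2 * (Q * Q)) := by rw [h3, mul_one]
      _ = ((V * V) * (1 - J) ^ 2) * (Q * Q) := by rw [mul_assoc (V * V)]
      _ = U * ((1 - J) ^ 2 * (Q * Q)) := by rw [c3, mul_assoc]
      _ = U := by rw [h3, mul_one]

/-- the Cayley transform of a selfadjoint operator -/
lemma cayley (A U : H →L[ℂ] H) (hA : star A = A)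
    (h : (1 + Complex.I • A) ^ 2 = U * (1 - Complex.I • A) ^ 2) :
    ∃ Q V : H →L[ℂ] H, (1 - Complex.I • A) * Q = 1 ∧ Q * (1 - Complex.I • A) = 1 ∧
      V = 2 * Q - 1 ∧ star V * V = 1 ∧ V * star V = 1 ∧ V * V = U ∧
      V * (1 - Complex.I • A) = 1 + Complex.I • A := by
  have hu : IsUnit (1 - Complex.I • A) := by
    have h1 : (-Complex.I) ∉ spectrum ℂ A := by
      intro hm
      have := IsSelfAdjoint.mem_spectrum_eq_re (a := A) hA hm
      have h2 := congrArg Complex.im this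
      simp at h2
    rw [spectrum.notMem_iff] at h1
    have h3 : (1 - Complex.I • A) = Complex.I • (algebraMap ℂ (H →L[ℂ] H) (-Complex.I) - A) := by
      rw [smul_sub, Algebra.algebraMap_eq_smul_one, smul_smul]
      simp
    rw [h3]
    have : IsUnit (algebraMap ℂ (H →L[ℂ] H) Complex.I *
        (algebraMap ℂ (H →L[ℂ] H) (-Complex.I) - A)) :=
      ((isUnit_iff_ne_zero.2 Complex.I_ne_zero).map (algebraMap ℂ (H →L[ℂ] H))).mul h1
    rwa [Algebra.algebraMap_eq_smul_one, smul_mul_assoc, one_mul] at this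
  obtain ⟨b, hb⟩ := hu
  have hJ : star (Complex.I • A) = -(Complex.I • A) := by
    rw [star_smul, hA]; simp
  have h1 : (1 - Complex.I • A) * (↑b⁻¹ : H →L[ℂ] H) = 1 := by rw [← hb]; exact b.mul_inv
  have h2 : (↑b⁻¹ : H →L[ℂ] H) * (1 - Complex.I • A) = 1 := by rw [← hb]; exact b.inv_mul
  obtain ⟨k1, k2, k3, k4⟩ := cayley_ring (Complex.I • A) U _ hJ h h1 h2
  exact ⟨_, _, h1, h2, rfl, k1, k2, k3, k4⟩

/-- the Cayley transform of a selfadjoint contraction has nonnegative real part -/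
lemma cayley_nonneg (A V Q : H →L[ℂ] H) (hA : star A = A) (hn : ‖A‖ ≤ 1)
    (h1 : (1 - Complex.I • A) * Q = 1)
    (h4 : V * (1 - Complex.I • A) = 1 + Complex.I • A) (v : H) : 0 ≤ (⟪V v, v⟫_ℂ).re := by
  set w := Q v with hw
  have hv : v = w - Complex.I • A w := by
    have := congrArg (fun T : H →L[ℂ] H => T v) h1
    simpa using this.symm
  have hVv : V v = w + Complex.I • A w := by
    have := congrArg (fun T : H →L[ℂ] H => T w) h4
    rw [hv]
    simpa using this
  have hAw : ‖A w‖ ≤ ‖w‖ := by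
    calc ‖A w‖ ≤ ‖A‖ * ‖w‖ := A.le_opNorm w
      _ ≤ 1 * ‖w‖ := mul_le_mul_of_nonneg_right hn (norm_nonneg _)
      _ = ‖w‖ := one_mul _
  have hsym : ⟪A w, w⟫_ℂ = ⟪w, A w⟫_ℂ := by
    have : (star A) = ContinuousLinearMap.adjoint A := rfl
    calc ⟪A w, w⟫_ℂ = ⟪(star A) w, w⟫_ℂ := by rw [hA]
      _ = ⟪w, A w⟫_ℂ := by rw [this, ContinuousLinearMap.adjoint_inner_left]
  rw [hVv]
  conv_rhs => rw [hv]
  rw [inner_add_left, inner_sub_right, inner_sub_right, inner_smul_left, inner_smul_right,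
    inner_smul_left, inner_smul_right, inner_self_eq_norm_sq_to_K, inner_self_eq_norm_sq_to_K, hsym]
  have e : ((‖w‖ : ℂ) ^ 2 - Complex.I * ⟪w, A w⟫_ℂ + ((starRingEnd ℂ) Complex.I * ⟪w, A w⟫_ℂ -
      (starRingEnd ℂ) Complex.I * (Complex.I * (‖A w‖ : ℂ) ^ 2))) =
      ((‖w‖ ^ 2 - ‖A w‖ ^ 2 : ℝ) : ℂ) - 2 * (Complex.I * ⟪w, A w⟫_ℂ) := by
    rw [Complex.conj_I]
    push_cast
    linear_combination (‖A w‖ : ℂ) ^ 2 * Complex.I_mul_I
  have him : (⟪w, A w⟫_ℂ).im = 0 := by
    have h5 : (starRingEnd ℂ) ⟪w, A w⟫_ℂ = ⟪w, A w⟫_ℂ := by rw [inner_conj_symm, hsym]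
    exact Complex.conj_eq_iff_im.1 h5
  have e2 := congrArg Complex.re e
  refine le_trans ?_ (le_of_eq e2.symm)
  rw [Complex.sub_re, Complex.ofReal_re]
  have e3 : (2 * (Complex.I * ⟪w, A w⟫_ℂ)).re = 0 := by
    simp [him]
  rw [e3, sub_zero]
  have := norm_nonneg (A w)
  nlinarith [norm_nonneg (A w), norm_nonneg w]

/-- the kernel of the argument: an operator which anti-intertwines `V` and `V'` is zero -/
lemma anti (V V' R : H →L[ℂ] H) (h1 : star V * V = 1) (h2 : V * star V = 1)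
    (hpos : ∀ v, 0 ≤ (⟪V v, v⟫_ℂ).re)
    (hmix : ∀ v w, Tendsto (fun n : ℕ => ⟪w, ((V * V) ^ n) v⟫_ℂ) atTop (𝓝 0))
    (hcomp : ∀ (u : ℕ → H) (M : ℝ), (∀ n, ‖u n‖ ≤ M) →
      (∀ y, Tendsto (fun n => ⟪y, u n⟫_ℂ) atTop (𝓝 0)) →
      Tendsto (fun n => (V' - V) (u n)) atTop (𝓝 0))
    (hR : R * V = -(V' * R)) (hR' : star R * V' = -(V * star R)) : R = 0 := by
  set P := star R * R with hP
  have hPV : P * V = V * P := by
    calc P * V = star R * (R * V) := by rw [hP, mul_assoc]
      _ = -((star R * V') * R) := by rw [hR]; noncomm_ring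
      _ = V * P := by rw [hR', hP]; noncomm_ring
  have hPU : ∀ n : ℕ, P * (V * V) ^ n = (V * V) ^ n * P := fun n =>
    (((show Commute P V from hPV).mul_right hPV).pow_right n).eq
  have hVU : ∀ n : ℕ, V * (V * V) ^ n = (V * V) ^ n * V := fun n =>
    (((Commute.refl V).mul_right (Commute.refl V)).pow_right n).eq
  have hUU : star (V * V) * (V * V) = 1 := by
    rw [star_mul]
    calc star V * star V * (V * V) = star V * (star V * V) * V := by noncomm_ring
      _ = 1 := by rw [h1, mul_one, h1]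
  have hUn : ∀ n : ℕ, star ((V * V) ^ n) * (V * V) ^ n = 1 := by
    intro n
    induction n with
    | zero => simp
    | succ n ih =>
      rw [pow_succ, star_mul]
      calc star (V * V) * star ((V * V) ^ n) * ((V * V) ^ n * (V * V)) =
          star (V * V) * (star ((V * V) ^ n) * (V * V) ^ n) * (V * V) := by noncomm_ring
        _ = 1 := by rw [ih, mul_one, hUU]
  have hinner : ∀ (n : ℕ) (x y : H), ⟪((V * V) ^ n) x, ((V * V) ^ n) y⟫_ℂ = ⟪x, y⟫_ℂ := by
    intro n x y
    rw [← ContinuousLinearMap.adjoint_inner_right]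
    have : (ContinuousLinearMap.adjoint ((V * V) ^ n)) (((V * V) ^ n) y) =
      (star ((V * V) ^ n) * (V * V) ^ n) y := rfl
    rw [this, hUn]; rfl
  have hnormU : ∀ (n : ℕ) (x : H), ‖((V * V) ^ n) x‖ = ‖x‖ := by
    intro n x
    have h5 := hinner n x x
    rw [inner_self_eq_norm_sq_to_K, inner_self_eq_norm_sq_to_K] at h5
    have h6 : ‖((V * V) ^ n) x‖ ^ 2 = ‖x‖ ^ 2 := by exact_mod_cast h5
    exact (pow_left_inj₀ (norm_nonneg _) (norm_nonneg _) two_ne_zero).1 h6
  -- the basic identity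
  have key : ∀ v, (⟪(P * V) v, v⟫_ℂ).re =
      -(⟪V (R v), R v⟫_ℂ).re - (⟪(V' - V) (R v), R v⟫_ℂ).re := by
    intro v
    have e1 : ⟪(P * V) v, v⟫_ℂ = ⟪(R * V) v, R v⟫_ℂ := by
      have : (P * V) v = (ContinuousLinearMap.adjoint R) ((R * V) v) := rfl
      rw [this, ContinuousLinearMap.adjoint_inner_left]
    rw [e1, hR]
    have e2 : (-(V' * R)) v = -(V (R v)) - (V' - V) (R v) := by
      have e3 : (-(V' * R)) v = -(V' (R v)) := rfl
      have e4 : (V' - V) (R v) = V' (R v) - V (R v) := rfl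
      rw [e3, e4]; abel
    rw [e2, inner_sub_left, inner_neg_left, Complex.sub_re, Complex.neg_re]
  have hle : ∀ v, (⟪(P * V) v, v⟫_ℂ).re ≤ 0 := by
    intro v
    have hb : ∀ n : ℕ, (⟪(P * V) v, v⟫_ℂ).re ≤
        ‖(V' - V) (R (((V * V) ^ n) v))‖ * (‖R‖ * ‖v‖) := by
      intro n
      have e1 : ⟪(P * V) (((V * V) ^ n) v), ((V * V) ^ n) v⟫_ℂ = ⟪(P * V) v, v⟫_ℂ := by
        have : (P * V) (((V * V) ^ n) v) = ((V * V) ^ n) ((P * V) v) := by
          have h7 : (P * V) * (V * V) ^ n = (V * V) ^ n * (P * V) := by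
            rw [mul_assoc, hVU, ← mul_assoc, hPU, mul_assoc]
          exact congrArg (fun T : H →L[ℂ] H => T v) h7
        rw [this, hinner]
      rw [← e1, key]
      have h8 := hpos (R (((V * V) ^ n) v))
      have h9 : -(⟪(V' - V) (R (((V * V) ^ n) v)), R (((V * V) ^ n) v)⟫_ℂ).re ≤
          ‖(V' - V) (R (((V * V) ^ n) v))‖ * (‖R‖ * ‖v‖) := by
        refine (neg_le_abs _).trans ((Complex.abs_re_le_norm _).trans
          ((norm_inner_le_norm _ _).trans ?_))
        refine mul_le_mul_of_nonneg_left ?_ (norm_nonneg _)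
        refine (R.le_opNorm _).trans ?_
        rw [hnormU]
      linarith
    have hlim : Tendsto (fun n : ℕ => ‖(V' - V) (R (((V * V) ^ n) v))‖ * (‖R‖ * ‖v‖)) atTop
        (𝓝 0) := by
      have h5 := hcomp (fun n => R (((V * V) ^ n) v)) (‖R‖ * ‖v‖) (fun n => by
        refine (R.le_opNorm _).trans ?_
        rw [hnormU]) (fun y => by
        have h6 := hmix v ((ContinuousLinearMap.adjoint R) y)
        refine h6.congr fun n => ?_
        rw [ContinuousLinearMap.adjoint_inner_left])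
      have h6 := (h5.norm).mul_const (‖R‖ * ‖v‖)
      simpa using h6
    exact ge_of_tendsto' hlim hb
  -- positivity through the square root of `P`
  have hPnn : 0 ≤ P := star_mul_self_nonneg R
  set S := CFC.sqrt P with hS
  have hSS : S * S = P := CFC.sqrt_mul_sqrt_self P hPnn
  have hSsa : star S = S := (CFC.sqrt_nonneg P).isSelfAdjoint
  have hSV : S * V = V * S := by
    have : Commute P V := hPV
    exact (this.cfcₙ_nnreal NNReal.sqrt).eq
  have hge : ∀ v, 0 ≤ (⟪(P * V) v, v⟫_ℂ).re := by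
    intro v
    have e1 : ⟪(P * V) v, v⟫_ℂ = ⟪V (S v), S v⟫_ℂ := by
      have h5 : P * V = star S * (V * S) := by
        rw [← hSS, mul_assoc, hSV, hSsa]
      have h6 : (P * V) v = (ContinuousLinearMap.adjoint S) (V (S v)) := by
        rw [h5]; rfl
      rw [h6, ContinuousLinearMap.adjoint_inner_left]
    rw [e1]
    exact hpos _
  have hz : ∀ v, (⟪(P * V) v, v⟫_ℂ).re = 0 := fun v => le_antisymm (hle v) (hge v)
  -- `P (V + V*) = 0`
  have hPs : star P = P := by rw [hP, star_mul, star_star]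
  have hPV' : P * star V = star V * P := by
    have := congrArg star hPV
    rw [star_mul P V, star_mul V P, hPs] at this
    exact this.symm
  have hzero : P * (V + star V) = 0 := by
    have h5 : ∀ v, ⟪((P * (V + star V) : H →L[ℂ] H) : H →ₗ[ℂ] H) v, v⟫_ℂ = 0 := by
      intro v
      have e1 : ⟪((P * (V + star V) : H →L[ℂ] H) : H →ₗ[ℂ] H) v, v⟫_ℂ =
          ⟪(P * V) v, v⟫_ℂ + ⟪(P * star V) v, v⟫_ℂ := by
        rw [← inner_add_left]; congr 1
        simp
      have e2 : ⟪(P * star V) v, v⟫_ℂ = (starRingEnd ℂ) ⟪(P * V) v, v⟫_ℂ := by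
        rw [inner_conj_symm]
        have h6 : P * star V = star (P * V) := by rw [star_mul, hPs, hPV']
        rw [h6]
        exact ContinuousLinearMap.adjoint_inner_left _ _ _
      rw [e1, e2, Complex.add_conj, hz v]; simp
    have h6 := inner_map_self_eq_zero (((P * (V + star V) : H →L[ℂ] H) : H →ₗ[ℂ] H))
    have h7 := h6.1 h5
    ext v
    have := congrArg (fun T : H →ₗ[ℂ] H => T v) h7
    simpa using this
  have hPU1 : P * (V * V) = -P := by
    have h5 : P * (V + star V) * V = P * (V * V) + P * (star V * V) := by noncomm_ring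
    rw [hzero, h1, mul_one, zero_mul] at h5
    exact eq_neg_of_add_eq_zero_left h5.symm
  have hPUn : ∀ n : ℕ, P * (V * V) ^ n = (-1) ^ n * P := by
    intro n
    induction n with
    | zero => simp
    | succ n ih =>
      rw [pow_succ (V * V), ← mul_assoc, ih, mul_assoc, hPU1, pow_succ]
      simp
  have hP0 : P = 0 := by
    ext v
    have h5 : ∀ w, ⟪w, P v⟫_ℂ = 0 := by
      intro w
      have h6 := hmix v (P w)
      have h7 : ∀ n : ℕ, ‖⟪P w, ((V * V) ^ n) v⟫_ℂ‖ = ‖⟪w, P v⟫_ℂ‖ := by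
        intro n
        have e1 : ⟪P w, ((V * V) ^ n) v⟫_ℂ = ⟪w, (P * (V * V) ^ n) v⟫_ℂ := by
          have : P w = (ContinuousLinearMap.adjoint P) w := by
            have h8 : ContinuousLinearMap.adjoint P = P := hPs
            rw [h8]
          rw [this, ContinuousLinearMap.adjoint_inner_left]; rfl
        rw [e1, hPUn]
        rcases neg_one_pow_eq_or (H →L[ℂ] H) n with h | h <;> rw [h] <;> simp
      have h8 := h6.norm
      simp only [h7, norm_zero] at h8
      have := tendsto_nhds_unique h8 tendsto_const_nhds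
      exact norm_eq_zero.1 this.symm
    have := h5 (P v)
    simpa using inner_self_eq_zero.1 this
  have : star R * R = 0 := hP0
  exact CStarRing.star_mul_self_eq_zero_iff R |>.1 this


theorem t_inter : St_inter := by
  intro H _ _ _ U U' A A' Θ c hU1 hU2 hmix hA hn hcA hA' hcA' hK hΘ
  obtain ⟨Q, V, q1, q2, hV, v1, v2, v3, v4⟩ := cayley A U hA hcA
  obtain ⟨Q', V', q1', q2', hV', v1', v2', v3', v4'⟩ := cayley A' U' hA' hcA'
  have hpos : ∀ v, 0 ≤ (⟪V v, v⟫_ℂ).re := cayley_nonneg A V Q hA hn q1 v4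
  -- `T = Θ - V* Θ V'` satisfies `T V' = - V T`
  set T := Θ - star V * Θ * V' with hT
  have hΘ' : Θ * (V' * V') = (V * V) * Θ := by rw [v3', v3, hΘ]
  have hTV : T * V' = -(V * T) := by
    have e1 : T * V' = Θ * V' - star V * (Θ * (V' * V')) := by rw [hT]; noncomm_ring
    have e2 : V * T = V * Θ - (V * star V) * Θ * V' := by rw [hT]; noncomm_ring
    have e3 : star V * (V * V * Θ) = (star V * V) * (V * Θ) := by noncomm_ring
    rw [e1, e2, hΘ', e3, v1, v2]; noncomm_ring
  have hR : star T * V = -(V' * star T) := by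
    have e1 := congrArg star hTV
    rw [star_mul, star_neg, star_mul] at e1
    -- `star V' * star T = -(star T * star V)`
    calc star T * V = (V' * star V') * star T * V := by rw [v2', one_mul]
      _ = V' * (star V' * star T) * V := by noncomm_ring
      _ = V' * (-(star T * star V)) * V := by rw [e1]
      _ = -(V' * star T * (star V * V)) := by noncomm_ring
      _ = -(V' * star T) := by rw [v1, mul_one]
  have hdiff : V' - V = (2 * Complex.I) • (Q' * ((A' - A) * Q)) := by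
    have e1 : Q' * ((1 - Complex.I • A) - (1 - Complex.I • A')) * Q = Q' - Q := by
      rw [mul_sub, sub_mul, mul_assoc, q1, q2']; simp
    have e2 : (1 - Complex.I • A) - (1 - Complex.I • A') = Complex.I • (A' - A) := by
      rw [smul_sub]; abel
    rw [e2] at e1
    have e3 : V' - V = (2 : ℂ) • (Q' - Q) := by
      rw [hV, hV', two_smul]; noncomm_ring
    rw [e3, ← e1, mul_smul_comm, smul_mul_assoc, smul_smul, mul_assoc]
  have hcomp : ∀ (u : ℕ → H) (M : ℝ), (∀ n, ‖u n‖ ≤ M) →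
      (∀ y, Tendsto (fun n => ⟪y, u n⟫_ℂ) atTop (𝓝 0)) →
      Tendsto (fun n => (V' - V) (u n)) atTop (𝓝 0) := by
    intro u M hM hu
    have h1 := nuc_null hK (fun n => Q (u n)) (‖Q‖ * M) (fun n =>
      (Q.le_opNorm _).trans (mul_le_mul_of_nonneg_left (hM n) (norm_nonneg _))) (fun y => by
        refine (hu ((ContinuousLinearMap.adjoint Q) y)).congr fun n => ?_
        rw [ContinuousLinearMap.adjoint_inner_left])
    have h2 : Tendsto (fun n => (2 * Complex.I) • Q' ((A' - A) (Q (u n)))) atTop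
        (𝓝 ((2 * Complex.I) • Q' 0)) :=
      ((Q'.continuous.tendsto 0).comp h1).const_smul (2 * Complex.I)
    rw [hdiff]
    simpa using h2
  have hmix' : ∀ v w, Tendsto (fun n : ℕ => ⟪w, ((V * V) ^ n) v⟫_ℂ) atTop (𝓝 0) := by
    rw [v3]; exact hmix
  have hR0 : star T = 0 := anti V V' (star T) v1 v2 hpos hmix' hcomp hR (by rw [star_star]; exact hTV)
  have hT0 : T = 0 := by
    have := congrArg star hR0
    simpa using this
  have hΘV : Θ * V' = V * Θ := by
    have e1 : Θ = star V * Θ * V' := by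
      rw [hT] at hT0
      exact sub_eq_zero.1 hT0
    calc Θ * V' = (V * star V) * Θ * V' := by rw [v2, one_mul]
      _ = V * (star V * Θ * V') := by noncomm_ring
      _ = V * Θ := by rw [← e1]
  have hΘQ : Θ * Q' = Q * Θ := by
    rw [hV, hV'] at hΘV
    have e1 : (2 : ℂ) • (Θ * Q') = (2 : ℂ) • (Q * Θ) := by
      rw [two_smul, two_smul]
      have e2 : Θ * (2 * Q' - 1) = Θ * Q' + Θ * Q' - Θ := by noncomm_ring
      have e3 : (2 * Q - 1) * Θ = Q * Θ + Q * Θ - Θ := by noncomm_ring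
      rw [e2, e3] at hΘV
      exact sub_left_injective hΘV
    exact smul_right_injective _ (two_ne_zero) e1
  have e1 : (1 - Complex.I • A) * Θ = Θ * (1 - Complex.I • A') := by
    calc (1 - Complex.I • A) * Θ = (1 - Complex.I • A) * (Θ * Q') * (1 - Complex.I • A') := by
          rw [mul_assoc, mul_assoc Θ, q2', mul_one]
      _ = ((1 - Complex.I • A) * Q) * Θ * (1 - Complex.I • A') := by rw [hΘQ, ← mul_assoc]
      _ = Θ * (1 - Complex.I • A') := by rw [q1, one_mul]
  have e2 : Complex.I • (A * Θ) = Complex.I • (Θ * A') := by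
    rw [sub_mul, mul_sub, one_mul, mul_one, smul_mul_assoc, mul_smul_comm] at e1
    exact sub_right_injective e1
  exact (smul_right_injective _ Complex.I_ne_zero e2).symm

end Pool.Agent.K3h69.TF
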