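import Pool.Agent.K3h73.TF.Stm

/-!
Brick MIN of the project on trace-class perturbations (owner helper73).
-/

set_option autoImplicit false

namespace Pool.Agent.K3h69.TF

open scoped InnerProductSpace ComplexConjugate Topology
open Filter Pool.Agent.K3h73.TF

section gen
variable {H : Type} [NormedAddCommGroup H] [InnerProductSpace ℂ H] [CompleteSpace H]

/-- the vectors on which a family tends weakly to zero -/
def nullSub {ι : Type} (l : Filter ι) (w : ι → H) : Submodule ℂ H where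
  carrier := {x | Tendsto (fun n => ⟪x, w n⟫_ℂ) l (𝓝 0)}
  add_mem' := by
    intro x y hx hy
    have := Tendsto.add (show Tendsto (fun n => ⟪x, w n⟫_ℂ) l (𝓝 0) from hx)
      (show Tendsto (fun n => ⟪y, w n⟫_ℂ) l (𝓝 0) from hy)
    simp only [add_zero] at this
    exact this.congr fun n => (inner_add_left _ _ _).symm
  zero_mem' := by
    show Tendsto (fun n => ⟪(0 : H), w n⟫_ℂ) l (𝓝 0)
    simp only [inner_zero_left]
    exact tendsto_const_nhds
  smul_mem' := by
    intro a x hx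
    have := Tendsto.const_mul (conj a) (show Tendsto (fun n => ⟪x, w n⟫_ℂ) l (𝓝 0) from hx)
    simp only [mul_zero] at this
    exact this.congr fun n => (inner_smul_left _ _ _).symm

omit [CompleteSpace H] in
lemma mem_nullSub {ι : Type} (l : Filter ι) (w : ι → H) (x : H) :
    x ∈ nullSub l w ↔ Tendsto (fun n => ⟪x, w n⟫_ℂ) l (𝓝 0) := Iff.rfl

omit [CompleteSpace H] in
lemma nullSub_closed {ι : Type} (l : Filter ι) (w : ι → H) (M : ℝ) (hM : ∀ n, ‖w n‖ ≤ M) :
    IsClosed (nullSub l w : Set H) := by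
  rw [← isSeqClosed_iff_isClosed]
  intro x x₀ hx hlim
  show Tendsto (fun n => ⟪x₀, w n⟫_ℂ) l (𝓝 0)
  rw [Metric.tendsto_nhds]
  intro ε hε
  have hM0 : 0 < |M| + 1 := by positivity
  have h1 : ∀ᶠ k in atTop, ‖x k - x₀‖ < ε / 2 / (|M| + 1) := by
    have := (tendsto_iff_norm_sub_tendsto_zero.1 hlim)
    exact this.eventually_lt_const (by positivity)
  obtain ⟨k, hk⟩ := h1.exists
  have h2 := (Metric.tendsto_nhds.1 (hx k)) (ε / 2) (by positivity)
  filter_upwards [h2] with n hn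
  rw [dist_zero_right] at hn ⊢
  have e1 : ⟪x₀, w n⟫_ℂ = ⟪x k, w n⟫_ℂ - ⟪x k - x₀, w n⟫_ℂ := by
    rw [inner_sub_left]; ring
  have h3 : ‖⟪x k - x₀, w n⟫_ℂ‖ ≤ ε / 2 := by
    refine (norm_inner_le_norm _ _).trans ?_
    have h4 : ‖w n‖ ≤ |M| + 1 := (hM n).trans ((le_abs_self M).trans (by linarith))
    calc ‖x k - x₀‖ * ‖w n‖ ≤ (ε / 2 / (|M| + 1)) * (|M| + 1) :=
          mul_le_mul hk.le h4 (norm_nonneg _) (by positivity)
      _ = ε / 2 := by field_simp
  rw [e1]
  calc ‖⟪x k, w n⟫_ℂ - ⟪x k - x₀, w n⟫_ℂ‖ ≤ ‖⟪x k, w n⟫_ℂ‖ + ‖⟪x k - x₀, w n⟫_ℂ‖ := norm_sub_le _ _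
    _ < ε := by linarith

/-- a bounded family which is weakly null against its own members is weakly null -/
lemma null_of_self {ι : Type} (l : Filter ι) (w : ι → H) (M : ℝ) (hM : ∀ n, ‖w n‖ ≤ M)
    (h : ∀ m, Tendsto (fun n => ⟪w m, w n⟫_ℂ) l (𝓝 0)) (x : H) :
    Tendsto (fun n => ⟪x, w n⟫_ℂ) l (𝓝 0) := by
  set K : Submodule ℂ H := (Submodule.span ℂ (Set.range w)).topologicalClosure with hK
  have hKc : IsClosed (K : Set H) := Submodule.isClosed_topologicalClosure _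
  have : CompleteSpace K := hKc.completeSpace_coe
  have h1 : K ≤ nullSub l w := by
    refine Submodule.topologicalClosure_minimal _ ?_ (nullSub_closed l w M hM)
    rw [Submodule.span_le]
    rintro _ ⟨m, rfl⟩
    exact h m
  have hwK : ∀ n, w n ∈ K := fun n =>
    Submodule.le_topologicalClosure _ (Submodule.subset_span ⟨n, rfl⟩)
  have h2 : Kᗮ ≤ nullSub l w := by
    intro y hy
    show Tendsto (fun n => ⟪y, w n⟫_ℂ) l (𝓝 0)
    have : ∀ n, ⟪y, w n⟫_ℂ = 0 := fun n => (Submodule.mem_orthogonal' K y).1 hy _ (hwK n)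
    simp only [this]
    exact tendsto_const_nhds
  have h3 : K ⊔ Kᗮ = ⊤ := Submodule.sup_orthogonal_of_hasOrthogonalProjection
  have h4 : (⊤ : Submodule ℂ H) ≤ nullSub l w := h3 ▸ sup_le h1 h2
  exact h4 trivial

variable {ι : Type}

omit [CompleteSpace H] in
lemma ext_b (b : HilbertBasis ι ℂ H) {S T : H →L[ℂ] H} (h : ∀ i, S (b i) = T (b i)) : S = T := by
  have hd : Dense ((Submodule.span ℂ (Set.range b) : Submodule ℂ H) : Set H) := by
    rw [Submodule.dense_iff_topologicalClosure_eq_top]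
    exact b.dense_span
  refine ContinuousLinearMap.ext_on hd ?_
  rintro _ ⟨i, rfl⟩
  exact h i

lemma exists_perm (b : HilbertBasis ι ℂ H) (σ : ι ≃ ι) :
    ∃ R : H ≃ₗᵢ[ℂ] H, ∀ i, R (b i) = b (σ i) := by
  classical
  have ho : Orthonormal ℂ (fun i => b (σ i)) := b.orthonormal.comp σ σ.injective
  have hr : Set.range (fun i => b (σ i)) = Set.range b := by
    ext x; constructor
    · rintro ⟨i, rfl⟩; exact ⟨σ i, rfl⟩
    · rintro ⟨i, rfl⟩; exact ⟨σ.symm i, by simp⟩
  have hs : ⊤ ≤ (Submodule.span ℂ (Set.range (fun i => b (σ i)))).topologicalClosure := by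
    rw [hr, b.dense_span]
  let b' := HilbertBasis.mk ho hs
  refine ⟨b.repr.trans b'.repr.symm, fun i => ?_⟩
  rw [LinearIsometryEquiv.trans_apply, b.repr_self, b'.repr_symm_single]
  exact congrFun (HilbertBasis.coe_mk ho hs) i

end gen

theorem t_min : St_min := by
  intro H _ _ _ b lam hlam e he hee he0 hcomm
  by_contra hneg
  push Not at hneg
  choose R hR using fun g : G => exists_perm b (Equiv.mulRight g⁻¹)
  simp only [Equiv.coe_mulRight] at hR
  have hl : ∀ (g : G) (x : H), ‖lam g x‖ = ‖x‖ := by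
    intro g x
    obtain ⟨T, hT⟩ := exists_perm b (Equiv.mulLeft g)
    have : lam g = (T : H →L[ℂ] H) := ext_b b fun h => by
      rw [hlam]; exact (hT h).symm
    rw [this]
    exact T.norm_map x
  have hadj : ∀ x y : H, ⟪e x, y⟫_ℂ = ⟪x, e y⟫_ℂ := by
    intro x y
    calc ⟪e x, y⟫_ℂ = ⟪(star e) x, y⟫_ℂ := by rw [he]
      _ = ⟪x, e y⟫_ℂ := ContinuousLinearMap.adjoint_inner_left _ _ _
  have hidem : ∀ x : H, e (e x) = e x := fun x => congrArg (fun T : H →L[ℂ] H => T x) hee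
  have hnorm : ∀ x : H, ⟪x, e x⟫_ℂ = ((‖e x‖ ^ 2 : ℝ) : ℂ) := by
    intro x
    rw [← hidem x, ← hadj, hidem, inner_self_eq_norm_sq_to_K]
    push_cast; rfl
  have hsymm : ∀ g h : G, (R g).symm (b h) = b (h * g) := by
    intro g h
    rw [LinearIsometryEquiv.symm_apply_eq, hR, mul_inv_cancel_right]
  have hRR : ∀ (h g : G) (x : H), (R h).symm (R g x) = R (h⁻¹ * g) x := by
    intro h g x
    have : ((R h).symm : H →L[ℂ] H) * (R g : H →L[ℂ] H) = (R (h⁻¹ * g) : H →L[ℂ] H) :=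
      ext_b b fun k => by
        show (R h).symm (R g (b k)) = R (h⁻¹ * g) (b k)
        rw [hR, hsymm, hR]; congr 1; group
    exact congrArg (fun T : H →L[ℂ] H => T x) this
  have hin : ∀ (g : G) (x y : H), ⟪x, R g y⟫_ℂ = ⟪(R g).symm x, y⟫_ℂ := by
    intro g x y
    rw [← (R g).inner_map_map ((R g).symm x) y, LinearIsometryEquiv.apply_symm_apply]
  have hRl : ∀ g k : G, (R g : H →L[ℂ] H) * lam k = lam k * (R g : H →L[ℂ] H) := by
    intro g k
    refine ext_b b fun h => ?_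
    show R g (lam k (b h)) = lam k (R g (b h))
    rw [hlam, hR, hR, hlam, mul_assoc]
  choose κ hκ using fun g : G => hneg (R g : H →L[ℂ] H) (hRl g)
  have hκ' : ∀ (g : G) (x : H), e (R g (e x)) = κ g • e x := fun g x =>
    congrArg (fun T : H →L[ℂ] H => T x) (hκ g)
  set ξ := e (b 1) with hξ
  have heg : ∀ g : G, e (b g) = lam g ξ := by
    intro g
    have h1 : b g = lam g (b 1) := by rw [hlam, mul_one]
    have h2 := congrArg (fun T : H →L[ℂ] H => T (b 1)) (hcomm g)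
    rw [h1]; exact h2
  have hegn : ∀ g : G, ‖e (b g)‖ = ‖ξ‖ := fun g => by rw [heg, hl]
  have hξ0 : ξ ≠ 0 := by
    intro h0
    apply he0
    refine ext_b b fun g => ?_
    have := hegn g
    rw [h0, norm_zero, norm_eq_zero] at this
    simpa using this
  -- weak convergence of `R g ξ`
  have hb0 : Tendsto (fun g : G => ⟪b g, ξ⟫_ℂ) cofinite (𝓝 0) := by
    have h1 := b.orthonormal.inner_products_summable ξ
    have h2 := h1.tendsto_cofinite_zero
    rw [tendsto_zero_iff_norm_tendsto_zero]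
    have h3 := (Real.continuous_sqrt.tendsto 0).comp h2
    rw [Real.sqrt_zero] at h3
    refine h3.congr fun g => ?_
    simp [Real.sqrt_sq]
  have hw1 : ∀ x : H, Tendsto (fun g : G => ⟪x, R g ξ⟫_ℂ) cofinite (𝓝 0) := by
    intro x
    have h1 : (Submodule.span ℂ (Set.range b)).topologicalClosure ≤
        nullSub cofinite (fun g : G => R g ξ) := by
      refine Submodule.topologicalClosure_minimal _ ?_
        (nullSub_closed _ _ ‖ξ‖ fun g => ((R g).norm_map ξ).le)
      rw [Submodule.span_le]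
      rintro _ ⟨h, rfl⟩
      show Tendsto (fun g : G => ⟪b h, R g ξ⟫_ℂ) cofinite (𝓝 0)
      refine (hb0.comp (mul_right_injective h).tendsto_cofinite).congr fun g => ?_
      rw [hin, hsymm]; rfl
    rw [b.dense_span] at h1
    exact h1 trivial
  have hκ0 : Tendsto κ cofinite (𝓝 0) := by
    have h1 := (hw1 ξ).const_mul ((((‖ξ‖ ^ 2 : ℝ) : ℂ))⁻¹)
    rw [mul_zero] at h1
    refine h1.congr fun g => ?_
    have h2 : ⟪ξ, R g ξ⟫_ℂ = κ g * ((‖ξ‖ ^ 2 : ℝ) : ℂ) := by
      have e1 : ⟪ξ, R g ξ⟫_ℂ = ⟪b 1, e (R g (e (b 1)))⟫_ℂ := hadj _ _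
      rw [e1, hκ', inner_smul_right, hnorm]
    rw [h2]
    have h3 : ((‖ξ‖ ^ 2 : ℝ) : ℂ) ≠ 0 := by
      have : ‖ξ‖ ≠ 0 := norm_ne_zero_iff.2 hξ0
      exact_mod_cast pow_ne_zero 2 this
    field_simp
  -- the vectors `w g = R g e (R g)⁻¹ b 1`
  have hw2 := null_of_self cofinite (fun g : G => R g (e (b g))) ‖ξ‖
    (fun g => by rw [(R g).norm_map, hegn]) (fun h => by
      have e1 : ∀ g : G, ⟪R h (e (b h)), R g (e (b g))⟫_ℂ = κ (h⁻¹ * g) * ⟪b h, e (b g)⟫_ℂ := by
        intro g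
        have e2 : ⟪R h (e (b h)), R g (e (b g))⟫_ℂ = ⟪e (b h), (R h).symm (R g (e (b g)))⟫_ℂ := by
          rw [← (R h).inner_map_map (e (b h)), LinearIsometryEquiv.apply_symm_apply]
        rw [e2, hRR, hadj, hκ', inner_smul_right]
      have h1 : Tendsto (fun g : G => ‖κ (h⁻¹ * g)‖ * ‖ξ‖) cofinite (𝓝 0) := by
        have := ((hκ0.comp (mul_right_injective h⁻¹).tendsto_cofinite).norm).mul_const ‖ξ‖
        simpa using this
      refine squeeze_zero_norm (fun g => ?_) h1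
      rw [e1, norm_mul]
      refine mul_le_mul_of_nonneg_left ?_ (norm_nonneg _)
      refine (norm_inner_le_norm _ _).trans ?_
      rw [b.orthonormal.norm_eq_one, one_mul, hegn]) (b 1)
  have h1 : ∀ g : G, ⟪b 1, R g (e (b g))⟫_ℂ = ((‖ξ‖ ^ 2 : ℝ) : ℂ) := by
    intro g
    rw [hin, hsymm, one_mul, hnorm, hegn]
  simp only [h1] at hw2
  have h2 := tendsto_nhds_unique hw2 tendsto_const_nhds
  have h3 : ‖ξ‖ ^ 2 = 0 := by exact_mod_cast h2.symm
  exact hξ0 (norm_eq_zero.1 (pow_eq_zero_iff two_ne_zero |>.1 h3))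

end Pool.Agent.K3h69.TF
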