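import Pool.Agent.K3h73.TF.Stm

/-!
Brick WLIM of the project on trace-class perturbations (owner helper73).
-/

set_option autoImplicit false

namespace Pool.Agent.K3h69.TF

open scoped InnerProductSpace ComplexConjugate Topology
open Filter Pool.Agent.K3h73.TF

theorem t_wlim : St_wlim := by
  intro H _ _ _ Θ hΘ
  have hb : ∀ (v w : H) n, ‖⟪w, Θ n v⟫_ℂ‖ ≤ ‖w‖ * ‖v‖ := fun v w n =>
    (norm_inner_le_norm _ _).trans (mul_le_mul_of_nonneg_left
      (((Θ n).le_opNorm v).trans ((mul_le_mul_of_nonneg_right (hΘ n) (norm_nonneg _)).trans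
        (one_mul _).le)) (norm_nonneg _))
  have hex : ∀ v w : H, ∃ z : ℂ, Tendsto (fun n => ⟪w, Θ n v⟫_ℂ) (hyperfilter ℕ : Filter ℕ) (𝓝 z) := by
    intro v w
    have hc : IsCompact (Metric.closedBall (0 : ℂ) (‖w‖ * ‖v‖)) := isCompact_closedBall _ _
    obtain ⟨z, -, hz⟩ := hc.ultrafilter_le_nhds ((hyperfilter ℕ).map (fun n => ⟪w, Θ n v⟫_ℂ)) (by
      rw [Ultrafilter.coe_map, le_principal_iff]
      exact mem_map.2 (univ_mem' fun n => by simpa using hb v w n))
    exact ⟨z, hz⟩
  choose B hB using hex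
  have hadd : ∀ v v' w, B (v + v') w = B v w + B v' w := fun v v' w =>
    tendsto_nhds_unique ((hB (v + v') w).congr fun n => by rw [map_add, inner_add_right])
      ((hB v w).add (hB v' w)) |>.trans rfl
  have hsmul : ∀ (a : ℂ) v w, B (a • v) w = a * B v w := fun a v w =>
    tendsto_nhds_unique ((hB (a • v) w).congr fun n => by rw [map_smul, inner_smul_right])
      ((hB v w).const_mul a)
  have hadd' : ∀ v w w', B v (w + w') = B v w + B v w' := fun v w w' =>
    tendsto_nhds_unique ((hB v (w + w')).congr fun n => by rw [inner_add_left])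
      ((hB v w).add (hB v w'))
  have hsmul' : ∀ (a : ℂ) v w, B v (a • w) = conj a * B v w := fun a v w =>
    tendsto_nhds_unique ((hB v (a • w)).congr fun n => by rw [inner_smul_left])
      ((hB v w).const_mul (conj a))
  have hn : ∀ v w, ‖B v w‖ ≤ ‖v‖ * ‖w‖ := fun v w =>
    le_of_tendsto' (hB v w).norm fun n => (hb v w n).trans (mul_comm _ _).le
  -- for each `v` the conjugate of `B v` gives a vector by Riesz
  let L : H →L⋆[ℂ] H →L[ℂ] ℂ := LinearMap.mkContinuous₂
    { toFun := fun v =>
        { toFun := fun w => conj (B v w)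
          map_add' := fun w w' => by rw [hadd', map_add]
          map_smul' := fun a w => by rw [hsmul']; simp }
      map_add' := fun v v' => by ext w; simp [hadd]
      map_smul' := fun a v => by ext w; simp [hsmul] } 1 (fun v w => by
        simpa using hn v w)
  have hL : ∀ v w, ⟪w, InnerProductSpace.continuousLinearMapOfBilin L v⟫_ℂ = B v w := by
    intro v w
    have h1 := InnerProductSpace.continuousLinearMapOfBilin_apply (B := L) v w
    have h2 : L v w = conj (B v w) := rfl
    rw [← inner_conj_symm, h1, h2, Complex.conj_conj]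
  refine ⟨InnerProductSpace.continuousLinearMapOfBilin L, ?_, fun v w => by rw [hL]; exact hB v w⟩
  refine ContinuousLinearMap.opNorm_le_bound _ zero_le_one fun v => ?_
  rw [one_mul]
  set z := InnerProductSpace.continuousLinearMapOfBilin L v with hz
  have h3 : ‖z‖ * ‖z‖ ≤ ‖v‖ * ‖z‖ := by
    have h4 : ‖⟪z, z⟫_ℂ‖ ≤ ‖v‖ * ‖z‖ := by
      rw [hz, hL]; exact hn _ _
    rw [inner_self_eq_norm_sq_to_K] at h4
    have h5 : ‖((‖z‖ : ℂ)) ^ 2‖ = ‖z‖ * ‖z‖ := by
      rw [norm_pow, Complex.norm_real, norm_norm, sq]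
    rw [← h5]; exact h4
  rcases (norm_nonneg z).eq_or_lt with h0 | h0
  · rw [← h0]; exact norm_nonneg _
  · exact le_of_mul_le_mul_right h3 h0

end Pool.Agent.K3h69.TF
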